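import Mathlib

set_option autoImplicit false

open Filter Topology

universe u

namespace Pool.Agent.Results.MP_8292e8_an.SquareNotConvexCyclic

/-- the real operator `T` is convex-cyclic -/
def ConvexCyclicR {X : Type u} [NormedAddCommGroup X] [NormedSpace ℝ X] (T : X →L[ℝ] X) : Prop :=
  ∃ x : X, Dense (convexHull ℝ (Set.range fun n : ℕ => (T ^ n) x))

/-- the complex operator `T` is convex-cyclic -/
def ConvexCyclicC {X : Type u} [NormedAddCommGroup X] [NormedSpace ℂ X] (T : X →L[ℂ] X) : Prop :=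
  ∃ x : X, Dense (convexHull ℝ (Set.range fun n : ℕ => (T ^ n) x))

section
variable {𝕜 : Type} [RCLike 𝕜] {X : Type u} [NormedAddCommGroup X] [NormedSpace 𝕜 X]

/-! ### a biorthogonal system -/

theorem exists_functional {W : Submodule 𝕜 X} (hW : IsClosed (W : Set X)) {x : X} (hx : x ∉ W) :
    ∃ f : StrongDual 𝕜 X, (∀ w ∈ W, f w = 0) ∧ f x = 1 := by
  have : IsClosed (W : Set X) := hW
  have hne : ‖(W.mkQL x : X ⧸ W)‖ ≠ 0 := by
    intro h
    apply hx
    have h2 : (Submodule.Quotient.mk x : X ⧸ W) = 0 := by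
      have := norm_eq_zero.1 h
      exact this
    rwa [Submodule.Quotient.mk_eq_zero] at h2
  obtain ⟨g, _, hg⟩ := exists_dual_vector 𝕜 (W.mkQL x : X ⧸ W) hne
  refine ⟨((‖(W.mkQL x : X ⧸ W)‖ : ℝ) : 𝕜)⁻¹ • g.comp W.mkQL, ?_, ?_⟩
  · intro w hw
    have : (W.mkQL w : X ⧸ W) = 0 := (Submodule.Quotient.mk_eq_zero W).2 hw
    rw [_root_.smul_apply, ContinuousLinearMap.comp_apply, this, map_zero, smul_zero]
  · rw [_root_.smul_apply, ContinuousLinearMap.comp_apply, hg, smul_eq_mul]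
    exact inv_mul_cancel₀ (by exact_mod_cast hne)

variable (𝕜) in
open Classical in
/-- the Gram-Schmidt type construction -/
noncomputable def bi (y : ℕ → X) (k : ℕ) : X × StrongDual 𝕜 X :=
  let x : X := y k - ∑ i : Fin k, (bi y i).2 (y k) • (bi y i).1
  (x, if h : ∃ f : StrongDual 𝕜 X, (∀ i : Fin k, f (bi y i).1 = 0) ∧ f x = 1 then h.choose else 0)
termination_by k
decreasing_by all_goals exact i.2

theorem bi_fst (y : ℕ → X) (k : ℕ) :
    (bi 𝕜 y k).1 = y k - ∑ i : Fin k, (bi 𝕜 y i).2 (y k) • (bi 𝕜 y i).1 := by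
  rw [bi]

open Classical in
theorem bi_snd (y : ℕ → X) (k : ℕ) :
    (bi 𝕜 y k).2 = if h : ∃ f : StrongDual 𝕜 X, (∀ i : Fin k, f (bi 𝕜 y i).1 = 0) ∧
      f (bi 𝕜 y k).1 = 1 then h.choose else 0 := by
  conv_lhs => rw [bi]
  rw [bi_fst y k]

theorem bi_spec (y : ℕ → X) (k : ℕ) :
    (∀ j < k, (bi 𝕜 y j).2 (bi 𝕜 y k).1 = 0 ∧ (bi 𝕜 y k).2 (bi 𝕜 y j).1 = 0) ∧
    ((bi 𝕜 y k).1 ≠ 0 → (bi 𝕜 y k).2 (bi 𝕜 y k).1 = 1) ∧
    ((bi 𝕜 y k).1 = 0 → (bi 𝕜 y k).2 = 0) := by
  induction k using Nat.strong_induction_on with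
  | _ k ih =>
    have hoff : ∀ i < k, ∀ j < k, i ≠ j → (bi 𝕜 y j).2 (bi 𝕜 y i).1 = 0 := by
      intro i hi j hj hij
      rcases lt_or_gt_of_ne hij with h | h
      · exact ((ih j hj).1 i h).2
      · exact ((ih i hi).1 j h).1
    have h1 : ∀ j < k, (bi 𝕜 y j).2 (bi 𝕜 y k).1 = 0 := by
      intro j hj
      by_cases hz : (bi 𝕜 y j).1 = 0
      · rw [(ih j hj).2.2 hz]; simp
      · rw [bi_fst y k, map_sub, map_sum, Finset.sum_eq_single (⟨j, hj⟩ : Fin k)]
        · simp only [map_smul, smul_eq_mul, (ih j hj).2.1 hz, mul_one, sub_self]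
        · intro i _ hij
          rw [map_smul, hoff i i.2 j hj (fun h => hij (Fin.ext h)), smul_zero]
        · intro h; exact absurd (Finset.mem_univ _) h
    by_cases hz : (bi 𝕜 y k).1 = 0
    · have hf : (bi 𝕜 y k).2 = 0 := by
        rw [bi_snd, dif_neg]
        rintro ⟨f, _, hf⟩
        rw [hz, map_zero] at hf
        exact zero_ne_one hf
      refine ⟨fun j hj => ⟨h1 j hj, by rw [hf]; simp⟩, fun h => absurd hz h, fun _ => hf⟩
    · have hex : ∃ f : StrongDual 𝕜 X, (∀ i : Fin k, f (bi 𝕜 y i).1 = 0) ∧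
          f (bi 𝕜 y k).1 = 1 := by
        set W : Submodule 𝕜 X := Submodule.span 𝕜 (Set.range fun i : Fin k => (bi 𝕜 y i).1) with hW
        have hfd : FiniteDimensional 𝕜 W := FiniteDimensional.span_of_finite 𝕜 (Set.finite_range _)
        have hcl : IsClosed (W : Set X) := Submodule.closed_of_finiteDimensional W
        have hnot : (bi 𝕜 y k).1 ∉ W := by
          intro hmem
          rw [hW, Submodule.mem_span_range_iff_exists_fun] at hmem
          obtain ⟨c, hc⟩ := hmem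
          apply hz
          rw [← hc]
          apply Finset.sum_eq_zero
          intro j _
          by_cases hzj : (bi 𝕜 y j).1 = 0
          · rw [hzj, smul_zero]
          · have h2 := h1 j j.2
            rw [← hc, map_sum, Finset.sum_eq_single j] at h2
            · rw [map_smul, (ih j j.2).2.1 hzj, smul_eq_mul, mul_one] at h2
              rw [h2, zero_smul]
            · intro i _ hij
              rw [map_smul, hoff i i.2 j j.2 (fun h => hij (Fin.ext h)), smul_zero]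
            · intro h; exact absurd (Finset.mem_univ _) h
        obtain ⟨f, hf1, hf2⟩ := exists_functional hcl hnot
        exact ⟨f, fun i => hf1 _ (Submodule.subset_span ⟨i, rfl⟩), hf2⟩
      have hf : (bi 𝕜 y k).2 = hex.choose := by
        rw [bi_snd, dif_pos hex]
      have hspec := hex.choose_spec
      rw [← hf] at hspec
      exact ⟨fun j hj => ⟨h1 j hj, hspec.1 ⟨j, hj⟩⟩, fun _ => hspec.2, fun h => absurd h hz⟩

theorem exists_biorthogonal [Nontrivial X] [TopologicalSpace.SeparableSpace X] :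
    ∃ (x : ℕ → X) (f : ℕ → StrongDual 𝕜 X), (∀ j k, j ≠ k → f j (x k) = 0) ∧
      (∀ k, x k ≠ 0 → f k (x k) = 1) ∧ Dense (Submodule.span 𝕜 (Set.range x) : Set X) ∧
      ∃ k, x k ≠ 0 := by
  set y : ℕ → X := TopologicalSpace.denseSeq X with hy
  have hdense : Dense (Submodule.span 𝕜 (Set.range fun k => (bi 𝕜 y k).1) : Set X) := by
    refine (TopologicalSpace.denseRange_denseSeq X).mono ?_
    rintro _ ⟨k, rfl⟩
    have h := bi_fst (𝕜 := 𝕜) y k
    have h2 : y k = (bi 𝕜 y k).1 + ∑ i : Fin k, (bi 𝕜 y i).2 (y k) • (bi 𝕜 y i).1 := by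
      rw [h]; abel
    rw [← hy, SetLike.mem_coe, h2]
    refine Submodule.add_mem _ (Submodule.subset_span ⟨k, rfl⟩) ?_
    exact Submodule.sum_mem _ fun i _ => Submodule.smul_mem _ _ (Submodule.subset_span ⟨i, rfl⟩)
  refine ⟨fun k => (bi 𝕜 y k).1, fun k => (bi 𝕜 y k).2, ?_, fun k => (bi_spec y k).2.1, hdense, ?_⟩
  · intro j k hjk
    rcases lt_or_gt_of_ne hjk with h | h
    · exact ((bi_spec y k).1 j h).1
    · exact ((bi_spec y j).1 k h).2
  · by_contra hcon
    push Not at hcon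
    have hspan : Submodule.span 𝕜 (Set.range fun k => (bi 𝕜 y k).1) = ⊥ := by
      rw [Submodule.span_eq_bot]
      rintro _ ⟨k, rfl⟩
      exact hcon k
    rw [hspan] at hdense
    obtain ⟨v, hv⟩ := exists_ne (0 : X)
    have h3 : closure ((⊥ : Submodule 𝕜 X) : Set X) = {0} := by
      simp
    have h4 := hdense v
    rw [h3] at h4
    exact hv h4

/-! ### the operator -/

variable (x : ℕ → X) (f : ℕ → StrongDual 𝕜 X)

noncomputable def dl (k : ℕ) : ℝ :=
  (1 / 2) ^ k * ∏ j ∈ Finset.range (k + 1), (1 + ‖f j‖ * ‖x j‖)⁻¹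

theorem inv_pos' (j : ℕ) : 0 < (1 + ‖f j‖ * ‖x j‖)⁻¹ := by positivity

theorem inv_le' (j : ℕ) : (1 + ‖f j‖ * ‖x j‖)⁻¹ ≤ 1 :=
  inv_le_one_of_one_le₀ (by have := mul_nonneg (norm_nonneg (f j)) (norm_nonneg (x j)); linarith)

theorem dl_pos (k : ℕ) : 0 < dl x f k :=
  mul_pos (by positivity) (Finset.prod_pos fun j _ => inv_pos' x f j)

theorem dl_succ_lt (k : ℕ) : dl x f (k + 1) < dl x f k := by
  have h1 : dl x f (k + 1) = dl x f k * ((1 / 2) * (1 + ‖f (k + 1)‖ * ‖x (k + 1)‖)⁻¹) := by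
    unfold dl
    rw [Finset.prod_range_succ _ (k + 1), pow_succ]
    ring
  rw [h1]
  have h2 := inv_le' x f (k + 1)
  have h3 := dl_pos x f k
  nlinarith

theorem dl_strictAnti : StrictAnti (dl x f) := strictAnti_nat_of_succ_lt (dl_succ_lt x f)

theorem dl_le (k : ℕ) : dl x f k * (‖f k‖ * ‖x k‖) ≤ (1 / 2) ^ k := by
  unfold dl
  rw [Finset.prod_range_succ, mul_assoc, mul_assoc]
  have h1 : ∏ j ∈ Finset.range k, (1 + ‖f j‖ * ‖x j‖)⁻¹ ≤ 1 :=
    Finset.prod_le_one (fun j _ => (inv_pos' x f j).le) fun j _ => inv_le' x f j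
  have h1' : 0 ≤ ∏ j ∈ Finset.range k, (1 + ‖f j‖ * ‖x j‖)⁻¹ :=
    Finset.prod_nonneg fun j _ => (inv_pos' x f j).le
  have h2 : (1 + ‖f k‖ * ‖x k‖)⁻¹ * (‖f k‖ * ‖x k‖) ≤ 1 := by
    rw [inv_mul_le_iff₀ (by positivity)]
    linarith [mul_nonneg (norm_nonneg (f k)) (norm_nonneg (x k))]
  have h2' : 0 ≤ (1 + ‖f k‖ * ‖x k‖)⁻¹ * (‖f k‖ * ‖x k‖) := by positivity
  have h3 : (∏ j ∈ Finset.range k, (1 + ‖f j‖ * ‖x j‖)⁻¹) *
      ((1 + ‖f k‖ * ‖x k‖)⁻¹ * (‖f k‖ * ‖x k‖)) ≤ 1 := mul_le_one₀ h1 h2' h2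
  calc (1 / 2 : ℝ) ^ k * ((∏ j ∈ Finset.range k, (1 + ‖f j‖ * ‖x j‖)⁻¹) *
      ((1 + ‖f k‖ * ‖x k‖)⁻¹ * (‖f k‖ * ‖x k‖))) ≤ (1 / 2 : ℝ) ^ k * 1 := by gcongr
    _ = _ := mul_one _

variable [CompleteSpace X]

/-- `T = 2 + Σ δ_k f_k ⊗ x_k` -/
noncomputable def T : X →L[𝕜] X :=
  (2 : 𝕜) • ContinuousLinearMap.id 𝕜 X +
    ∑' k, ((dl x f k : ℝ) : 𝕜) • (f k).smulRight (x k)

theorem summable_T : Summable fun k => ((dl x f k : ℝ) : 𝕜) • (f k).smulRight (x k) := by
  refine Summable.of_norm_bounded (g := fun k => (1 / 2 : ℝ) ^ k)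
    (summable_geometric_of_lt_one (by norm_num) (by norm_num)) fun k => ?_
  rw [norm_smul, RCLike.norm_ofReal, abs_of_pos (dl_pos x f k),
    ContinuousLinearMap.norm_smulRight_apply]
  exact dl_le x f k

theorem T_apply (v : X) : T x f v = (2 : 𝕜) • v +
    ∑' k, ((dl x f k : ℝ) : 𝕜) • (f k v • x k) := by
  have h := ContinuousLinearMap.map_tsum (ContinuousLinearMap.apply 𝕜 X v) (summable_T x f)
  simp only [ContinuousLinearMap.apply_apply] at h
  rw [T, _root_.add_apply, _root_.smul_apply, h]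
  rfl

theorem summable_Tv (v : X) : Summable fun k => ((dl x f k : ℝ) : 𝕜) • (f k v • x k) := by
  have := (summable_T x f).mapL (ContinuousLinearMap.apply 𝕜 X v)
  exact this

variable {x f}

theorem T_x (h1 : ∀ j k, j ≠ k → f j (x k) = 0) (h2 : ∀ k, x k ≠ 0 → f k (x k) = 1) (k : ℕ) :
    T x f (x k) = ((2 + dl x f k : ℝ) : 𝕜) • x k := by
  by_cases hz : x k = 0
  · rw [hz, map_zero, smul_zero]
  · rw [T_apply, tsum_eq_single k]
    · rw [h2 k hz, one_smul, ← add_smul]
      push_cast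
      rfl
    · intro j hj
      rw [h1 j k hj, zero_smul, smul_zero]

theorem f_T (h1 : ∀ j k, j ≠ k → f j (x k) = 0) (h2 : ∀ k, x k ≠ 0 → f k (x k) = 1) {k : ℕ}
    (hk : x k ≠ 0) (v : X) : f k (T x f v) = ((2 + dl x f k : ℝ) : 𝕜) * f k v := by
  rw [T_apply, map_add, map_smul, ContinuousLinearMap.map_tsum _ (summable_Tv x f v),
    tsum_eq_single k]
  · rw [map_smul, map_smul, h2 k hk]
    push_cast
    simp only [smul_eq_mul]
    ring
  · intro j hj
    rw [map_smul, map_smul, h1 k j (Ne.symm hj), smul_zero, smul_zero]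

theorem T_pow_x (h1 : ∀ j k, j ≠ k → f j (x k) = 0) (h2 : ∀ k, x k ≠ 0 → f k (x k) = 1)
    (n k : ℕ) : (T x f ^ n) (x k) = ((2 + dl x f k : ℝ) : 𝕜) ^ n • x k := by
  induction n with
  | zero => simp
  | succ n ih =>
    have e : (T x f ^ (n + 1)) (x k) = T x f ((T x f ^ n) (x k)) := by
      rw [pow_succ']; rfl
    rw [e, ih, map_smul, T_x h1 h2, smul_smul, pow_succ]

/-- the convex-cyclic vector -/
noncomputable def cc (x : ℕ → X) (k : ℕ) : ℝ := (1 / 2) ^ k / (1 + ‖x k‖)

omit [CompleteSpace X] in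
theorem cc_pos (k : ℕ) : 0 < cc x k := by unfold cc; positivity

omit [CompleteSpace X] in
theorem cc_le (k : ℕ) : cc x k * ‖x k‖ ≤ (1 / 2) ^ k := by
  unfold cc
  rw [div_mul_eq_mul_div, div_le_iff₀ (by positivity)]
  have : (0 : ℝ) < (1 / 2) ^ k := by positivity
  nlinarith [norm_nonneg (x k)]

theorem summable_cc : Summable fun k => ((cc x k : ℝ) : 𝕜) • x k := by
  refine Summable.of_norm_bounded (g := fun k => (1 / 2 : ℝ) ^ k)
    (summable_geometric_of_lt_one (by norm_num) (by norm_num)) fun k => ?_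
  rw [norm_smul, RCLike.norm_ofReal, abs_of_pos (cc_pos k)]
  exact cc_le k

variable (𝕜 x) in
noncomputable def vec : X := ∑' k, ((cc x k : ℝ) : 𝕜) • x k

theorem g_T_pow (h1 : ∀ j k, j ≠ k → f j (x k) = 0) (h2 : ∀ k, x k ≠ 0 → f k (x k) = 1)
    (g : StrongDual 𝕜 X) (n : ℕ) : g ((T x f ^ n) (vec 𝕜 x)) =
      ∑' k, ((cc x k : ℝ) : 𝕜) * (((2 + dl x f k : ℝ) : 𝕜) ^ n * g (x k)) := by
  have h := ContinuousLinearMap.map_tsum (g.comp (T x f ^ n)) (summable_cc (𝕜 := 𝕜) (x := x))
  have e : g ((T x f ^ n) (vec 𝕜 x)) = (g.comp (T x f ^ n)) (∑' k, ((cc x k : ℝ) : 𝕜) • x k) := rfl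
  rw [e, h]
  congr 1
  funext k
  rw [ContinuousLinearMap.comp_apply, map_smul, T_pow_x h1 h2, map_smul, map_smul, smul_eq_mul,
    smul_eq_mul]

theorem tendsto_ratio (h1 : ∀ j k, j ≠ k → f j (x k) = 0) (h2 : ∀ k, x k ≠ 0 → f k (x k) = 1)
    (g : StrongDual 𝕜 X) (k0 : ℕ) (hk0 : ∀ k < k0, g (x k) = 0) :
    Tendsto (fun n : ℕ => ((2 + dl x f k0 : ℝ) : 𝕜)⁻¹ ^ n * g ((T x f ^ n) (vec 𝕜 x))) atTop
      (𝓝 (((cc x k0 : ℝ) : 𝕜) * g (x k0))) := by
  have hr0 : 0 < 2 + dl x f k0 := by have := dl_pos x f k0; linarith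
  have hlim := tendsto_tsum_of_dominated_convergence (𝓕 := atTop)
    (f := fun (n : ℕ) k => (((2 + dl x f k) / (2 + dl x f k0) : ℝ) : 𝕜) ^ n *
      (((cc x k : ℝ) : 𝕜) * g (x k)))
    (g := fun k => if k = k0 then ((cc x k0 : ℝ) : 𝕜) * g (x k0) else 0)
    (bound := fun k => ‖g‖ * (1 / 2 : ℝ) ^ k)
    ((summable_geometric_of_lt_one (by norm_num) (by norm_num)).mul_left _)
    (by
      intro k
      rcases lt_trichotomy k k0 with h | h | h
      · rw [if_neg h.ne, hk0 k h]
        simp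
      · subst h
        simp only [if_true, div_self hr0.ne', RCLike.ofReal_one, one_pow, one_mul]
        exact tendsto_const_nhds
      · rw [if_neg h.ne']
        have hlt : (2 + dl x f k) / (2 + dl x f k0) < 1 := by
          rw [div_lt_one hr0]
          have := dl_strictAnti x f h
          linarith
        have hge : 0 ≤ (2 + dl x f k) / (2 + dl x f k0) := by
          have := dl_pos x f k
          positivity
        have hp : Tendsto (fun n : ℕ => (((2 + dl x f k) / (2 + dl x f k0) : ℝ) : 𝕜) ^ n) atTop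
            (𝓝 0) := by
          apply tendsto_pow_atTop_nhds_zero_of_norm_lt_one
          rw [RCLike.norm_ofReal, abs_of_nonneg hge]
          exact hlt
        have := hp.mul_const (((cc x k : ℝ) : 𝕜) * g (x k))
        rw [zero_mul] at this
        exact this)
    (Eventually.of_forall fun n k => by
      by_cases h : k < k0
      · rw [hk0 k h]
        simp only [mul_zero, norm_zero]
        positivity
      · push Not at h
        have hle : (2 + dl x f k) / (2 + dl x f k0) ≤ 1 := by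
          rw [div_le_one hr0]
          have := (dl_strictAnti x f).antitone h
          linarith
        have hge : 0 ≤ (2 + dl x f k) / (2 + dl x f k0) := by
          have := dl_pos x f k
          positivity
        rw [norm_mul, norm_pow, RCLike.norm_ofReal, abs_of_nonneg hge, norm_mul, RCLike.norm_ofReal,
          abs_of_pos (cc_pos k)]
        calc ((2 + dl x f k) / (2 + dl x f k0)) ^ n * (cc x k * ‖g (x k)‖)
            ≤ 1 * (cc x k * (‖g‖ * ‖x k‖)) := by
              apply mul_le_mul (pow_le_one₀ hge hle) _ (by have := cc_pos (x := x) k; positivity) zero_le_one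
              apply mul_le_mul_of_nonneg_left (g.le_opNorm _) (cc_pos k).le
          _ = ‖g‖ * (cc x k * ‖x k‖) := by ring
          _ ≤ ‖g‖ * (1 / 2) ^ k := by
              apply mul_le_mul_of_nonneg_left (cc_le k) (norm_nonneg _))
  rw [tsum_ite_eq] at hlim
  refine hlim.congr fun n => ?_
  rw [g_T_pow h1 h2, ← tsum_mul_left]
  congr 1
  funext k
  have hr0' : ((2 + dl x f k0 : ℝ) : 𝕜) ≠ 0 := by exact_mod_cast hr0.ne'
  rw [RCLike.ofReal_div, div_pow, inv_pow]
  field_simp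

/-- the orbit of `vec` is unbounded above in each direction -/
theorem unbounded (h1 : ∀ j k, j ≠ k → f j (x k) = 0) (h2 : ∀ k, x k ≠ 0 → f k (x k) = 1)
    (hd : Dense (Submodule.span 𝕜 (Set.range x) : Set X)) {w : 𝕜} (hw4 : w ^ 4 = 1)
    (hw : ∀ z : 𝕜, z ≠ 0 → ∃ m : ℕ, 0 < RCLike.re (w ^ m * z))
    {g : StrongDual 𝕜 X} (hg : g ≠ 0) (B : ℝ) :
    ∃ n : ℕ, B < RCLike.re (g (((w • T x f) ^ n) (vec 𝕜 x))) := by
  classical
  have hex : ∃ k, g (x k) ≠ 0 := by
    by_contra hcon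
    push Not at hcon
    apply hg
    have : ∀ v ∈ (Submodule.span 𝕜 (Set.range x) : Set X), g v = (0 : StrongDual 𝕜 X) v := by
      intro v hv
      rw [SetLike.mem_coe] at hv
      have hle : Submodule.span 𝕜 (Set.range x) ≤ LinearMap.ker (g : X →ₗ[𝕜] 𝕜) := by
        rw [Submodule.span_le]
        rintro _ ⟨k, rfl⟩
        exact hcon k
      exact hle hv
    have h3 := Continuous.ext_on hd g.continuous (0 : StrongDual 𝕜 X).continuous this
    exact DFunLike.coe_injective h3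
  set k0 := Nat.find hex with hk0
  have hk1 : g (x k0) ≠ 0 := Nat.find_spec hex
  have hk2 : ∀ k < k0, g (x k) = 0 := fun k hk => by
    by_contra h
    exact Nat.find_min hex hk h
  have hr0 : 2 < 2 + dl x f k0 := by have := dl_pos x f k0; linarith
  have hz : ((cc x k0 : ℝ) : 𝕜) * g (x k0) ≠ 0 :=
    mul_ne_zero (by exact_mod_cast (cc_pos k0).ne') hk1
  obtain ⟨m, hm⟩ := hw _ hz
  have hlim := tendsto_ratio h1 h2 g k0 hk2
  -- along n = 4 q + m
  have hsub : Tendsto (fun q : ℕ => 4 * q + m) atTop atTop :=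
    tendsto_atTop_mono (fun q => by omega : ∀ q, q ≤ 4 * q + m) tendsto_id
  have hlim2 := (hlim.comp hsub).const_mul (w ^ m)
  have hlim3 := (RCLike.continuous_re.tendsto _).comp hlim2
  have hpow : Tendsto (fun q : ℕ => (2 + dl x f k0) ^ (4 * q + m)) atTop atTop :=
    (tendsto_pow_atTop_atTop_of_one_lt (by linarith)).comp hsub
  have hprod := hpow.atTop_mul_pos hm hlim3
  obtain ⟨q, hq⟩ := (hprod.eventually_gt_atTop B).exists
  refine ⟨4 * q + m, lt_of_lt_of_eq hq ?_⟩
  have hr0' : ((2 + dl x f k0 : ℝ) : 𝕜) ≠ 0 := by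
    have : (2 + dl x f k0 : ℝ) ≠ 0 := by linarith
    exact_mod_cast this
  have hwp : w ^ (4 * q + m) = w ^ m := by rw [pow_add, pow_mul, hw4, one_pow, one_mul]
  have e1 : ((w • T x f) ^ (4 * q + m)) (vec 𝕜 x) =
      w ^ m • (T x f ^ (4 * q + m)) (vec 𝕜 x) := by
    rw [smul_pow, hwp]; rfl
  rw [e1, map_smul, smul_eq_mul]
  simp only [Function.comp_apply]
  rw [← RCLike.re_ofReal_mul]
  congr 1
  rw [inv_pow, RCLike.ofReal_pow]
  field_simp

/-- density of the convex hull of the orbit -/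
theorem dense_hull [NormedSpace ℝ X] [IsScalarTower ℝ 𝕜 X]
    (h1 : ∀ j k, j ≠ k → f j (x k) = 0) (h2 : ∀ k, x k ≠ 0 → f k (x k) = 1)
    (hd : Dense (Submodule.span 𝕜 (Set.range x) : Set X)) {w : 𝕜} (hw4 : w ^ 4 = 1)
    (hw : ∀ z : 𝕜, z ≠ 0 → ∃ m : ℕ, 0 < RCLike.re (w ^ m * z)) :
    Dense (convexHull ℝ (Set.range fun n : ℕ => ((w • T x f) ^ n) (vec 𝕜 x))) := by
  intro z
  by_contra hz
  obtain ⟨g, b, hg1, hg2⟩ := RCLike.geometric_hahn_banach_closed_point (𝕜 := 𝕜)
    ((convex_convexHull ℝ _).closure) isClosed_closure hz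
  have hg : g ≠ 0 := by
    rintro rfl
    have h3 := hg1 (((w • T x f) ^ 0) (vec 𝕜 x)) (subset_closure (subset_convexHull ℝ _ ⟨0, rfl⟩))
    simp only [_root_.zero_apply, map_zero] at h3 hg2
    linarith
  obtain ⟨n, hn⟩ := unbounded h1 h2 hd hw4 hw hg b
  have h4 := hg1 _ (subset_closure (subset_convexHull ℝ _ ⟨n, rfl⟩))
  simp only at h4
  linarith

theorem f_T_pow (h1 : ∀ j k, j ≠ k → f j (x k) = 0) (h2 : ∀ k, x k ≠ 0 → f k (x k) = 1) {k : ℕ}
    (hk : x k ≠ 0) (n : ℕ) (v : X) :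
    f k ((T x f ^ n) v) = ((2 + dl x f k : ℝ) : 𝕜) ^ n * f k v := by
  induction n generalizing v with
  | zero => simp
  | succ n ih =>
    have e : (T x f ^ (n + 1)) v = (T x f ^ n) (T x f v) := by
      rw [pow_succ]; rfl
    rw [e, ih, f_T h1 h2 hk, pow_succ, mul_assoc]

theorem f_sq (h1 : ∀ j k, j ≠ k → f j (x k) = 0) (h2 : ∀ k, x k ≠ 0 → f k (x k) = 1) {k : ℕ}
    (hk : x k ≠ 0) (w : 𝕜) (n : ℕ) (v : X) :
    f k ((((w • T x f) ^ 2) ^ n) v) =
      (w ^ 2) ^ n * (((((2 + dl x f k) ^ 2) ^ n : ℝ) : 𝕜) * f k v) := by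
  have e : (((w • T x f) ^ 2) ^ n) v = (w ^ 2) ^ n • (T x f ^ (2 * n)) v := by
    rw [smul_pow, smul_pow, ← pow_mul (T x f)]; rfl
  rw [e, map_smul, f_T_pow h1 h2 hk, smul_eq_mul, pow_mul]
  push_cast
  rfl

end

/-- Every nonzero separable real Banach space, and every nonzero separable complex Banach space,
carries a convex-cyclic operator whose square is not convex-cyclic. -/
theorem result :
    (∀ (X : Type u) [NormedAddCommGroup X] [NormedSpace ℝ X] [CompleteSpace X]
      [TopologicalSpace.SeparableSpace X] [Nontrivial X],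
      ∃ S : X →L[ℝ] X, ConvexCyclicR S ∧ ¬ ConvexCyclicR (S ^ 2)) ∧
    (∀ (X : Type u) [NormedAddCommGroup X] [NormedSpace ℂ X] [CompleteSpace X]
      [TopologicalSpace.SeparableSpace X] [Nontrivial X],
      ∃ S : X →L[ℂ] X, ConvexCyclicC S ∧ ¬ ConvexCyclicC (S ^ 2)) := by
  constructor
  · intro X _ _ _ _ _
    obtain ⟨x, f, h1, h2, hd, k, hk⟩ := exists_biorthogonal (𝕜 := ℝ) (X := X)
    refine ⟨(-1 : ℝ) • T x f, ⟨vec ℝ x, dense_hull h1 h2 hd (by norm_num) ?_⟩, ?_⟩
    · intro z hz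
      rcases lt_or_gt_of_ne hz with h | h
      · exact ⟨1, by simp; linarith⟩
      · exact ⟨0, by simp; linarith⟩
    · rintro ⟨v, hv⟩
      -- the convex hull of the orbit stays in a closed convex set
      have hkey : ∀ n : ℕ, f k (((((-1 : ℝ) • T x f) ^ 2) ^ n) v) =
          ((2 + dl x f k) ^ 2) ^ n * f k v := by
        intro n
        rw [f_sq h1 h2 hk]
        simp
      rcases le_total 0 (f k v) with hs | hs
      · have hsub : convexHull ℝ (Set.range fun n : ℕ => ((((-1 : ℝ) • T x f) ^ 2) ^ n) v) ⊆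
            {z | 0 ≤ f k z} := by
          apply convexHull_min
          · rintro _ ⟨n, rfl⟩
            rw [Set.mem_ofPred_eq, hkey]
            positivity
          · exact convex_halfSpace_ge ⟨(f k).map_add, (f k).map_smul⟩ 0
        have hcl : IsClosed {z : X | 0 ≤ f k z} := isClosed_le continuous_const (f k).continuous
        have h3 := (hcl.closure_subset_iff.2 hsub) (hv (-(x k)))
        rw [Set.mem_ofPred_eq, map_neg, h2 k hk] at h3
        linarith
      · have hsub : convexHull ℝ (Set.range fun n : ℕ => ((((-1 : ℝ) • T x f) ^ 2) ^ n) v) ⊆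
            {z | f k z ≤ 0} := by
          apply convexHull_min
          · rintro _ ⟨n, rfl⟩
            rw [Set.mem_ofPred_eq, hkey]
            have : 0 ≤ ((2 + dl x f k) ^ 2) ^ n := by positivity
            nlinarith
          · exact convex_halfSpace_le ⟨(f k).map_add, (f k).map_smul⟩ 0
        have hcl : IsClosed {z : X | f k z ≤ 0} := isClosed_le (f k).continuous continuous_const
        have h3 := (hcl.closure_subset_iff.2 hsub) (hv (x k))
        rw [Set.mem_ofPred_eq, h2 k hk] at h3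
        linarith
  · intro X _ _ _ _ _
    obtain ⟨x, f, h1, h2, hd, k, hk⟩ := exists_biorthogonal (𝕜 := ℂ) (X := X)
    refine ⟨Complex.I • T x f, ⟨vec ℂ x, dense_hull h1 h2 hd Complex.I_pow_four ?_⟩, ?_⟩
    · intro z hz
      by_contra hcon
      push Not at hcon
      have c0 := hcon 0
      have c1 := hcon 1
      have c2 := hcon 2
      have c3 := hcon 3
      simp [pow_succ] at c0 c1 c2 c3
      exact hz (Complex.ext (by simp; linarith) (by simp; linarith))
    · rintro ⟨v, hv⟩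
      set a := f k v with ha
      have hkey : ∀ n : ℕ, (f k ((((Complex.I • T x f) ^ 2) ^ n) v) * (starRingEnd ℂ) a).im = 0 := by
        intro n
        rw [f_sq h1 h2 hk, Complex.I_sq, ← ha]
        have e : (-1 : ℂ) ^ n * (((((2 + dl x f k) ^ 2) ^ n : ℝ) : ℂ) * a) * (starRingEnd ℂ) a =
            (((-1 : ℝ) ^ n * ((2 + dl x f k) ^ 2) ^ n * Complex.normSq a : ℝ) : ℂ) := by
          rw [mul_assoc, mul_assoc, Complex.mul_conj]
          push_cast
          ring
        have e2 : (((((2 + dl x f k) ^ 2) ^ n : ℝ)) : ℂ) =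
            RCLike.ofReal (((2 + dl x f k) ^ 2) ^ n) := rfl
        rw [← e2, e, Complex.ofReal_im]
      by_cases ha0 : a = 0
      · -- orbit in the kernel of `f k`
        have hsub : convexHull ℝ (Set.range fun n : ℕ => (((Complex.I • T x f) ^ 2) ^ n) v) ⊆
            {z | f k z = 0} := by
          apply convexHull_min
          · rintro _ ⟨n, rfl⟩
            rw [Set.mem_ofPred_eq, f_sq h1 h2 hk, ← ha, ha0, mul_zero, mul_zero]
          · intro z1 hz1 z2 hz2 s t _ _ _
            rw [Set.mem_ofPred_eq] at *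
            rw [map_add, ContinuousLinearMap.map_smul_of_tower,
              ContinuousLinearMap.map_smul_of_tower, hz1, hz2, smul_zero, smul_zero,
              add_zero]
        have hcl : IsClosed {z : X | f k z = 0} := isClosed_eq (f k).continuous continuous_const
        have h3 := (hcl.closure_subset_iff.2 hsub) (hv (x k))
        rw [Set.mem_ofPred_eq, h2 k hk] at h3
        exact one_ne_zero h3
      · have hsub : convexHull ℝ (Set.range fun n : ℕ => (((Complex.I • T x f) ^ 2) ^ n) v) ⊆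
            {z | (f k z * (starRingEnd ℂ) a).im = 0} := by
          apply convexHull_min
          · rintro _ ⟨n, rfl⟩
            exact hkey n
          · intro z1 hz1 z2 hz2 s t _ _ _
            rw [Set.mem_ofPred_eq] at *
            rw [map_add, ContinuousLinearMap.map_smul_of_tower,
              ContinuousLinearMap.map_smul_of_tower, add_mul, Complex.add_im,
              smul_mul_assoc, smul_mul_assoc, Complex.smul_im, Complex.smul_im, hz1, hz2,
              smul_zero, smul_zero, add_zero]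
        have hcl : IsClosed {z : X | (f k z * (starRingEnd ℂ) a).im = 0} :=
          isClosed_eq (Complex.continuous_im.comp ((f k).continuous.mul continuous_const))
            continuous_const
        have h3 := (hcl.closure_subset_iff.2 hsub) (hv ((Complex.I * a) • x k))
        rw [Set.mem_ofPred_eq, map_smul, h2 k hk, smul_eq_mul, mul_one, mul_assoc,
          Complex.mul_conj, Complex.I_mul_im, Complex.ofReal_re] at h3
        exact ha0 (Complex.normSq_eq_zero.1 h3)

end Pool.Agent.Results.MP_8292e8_an.SquareNotConvexCyclic
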